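import Pool.Agent.H211.HY.Stm2
import Pool.Graph.R_seed8.H792R2.CE.D4
import Pool.Graph.R_seed8.H790R3.RB.TPQ

/-!
# Equality in the triangle inequality for the Ruelle operator (subtask of helper211, by helper284)
-/

set_option autoImplicit false

open Topology Filter Metric Set MeasureTheory Polynomial
open scoped ENNReal NNReal

namespace Pool.Agent.H284.HY211

open Pool.Agent.H211.HY
open Pool.Agent.H790R3.RB (pol)
open Pool.Agent.H792R2.CE (rf)
open Pool.Agent.H792R2.CE.D4x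

/-- the Wronskian of coprime polynomials which are not both constant is not zero -/
theorem wr_ne {P Q : ℂ[X]} (hc : IsCoprime P Q) (hd : 1 ≤ max P.natDegree Q.natDegree) :
    Pool.Agent.H792R2.CE.wr P Q ≠ 0 := by
  intro h
  have h1 : derivative P * Q = P * derivative Q := sub_eq_zero.1 h
  have h2 : P ∣ derivative P := by
    refine hc.dvd_of_dvd_mul_right (?_ : P ∣ derivative P * Q)
    rw [h1]
    exact dvd_mul_right _ _
  have h3 : Q ∣ derivative Q := by
    refine hc.symm.dvd_of_dvd_mul_left (?_ : Q ∣ P * derivative Q)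
    rw [← h1]
    exact dvd_mul_left _ _
  have h4 := Polynomial.derivative_eq_zero.1 (Polynomial.dvd_derivative_iff.1 h2)
  have h5 := Polynomial.derivative_eq_zero.1 (Polynomial.dvd_derivative_iff.1 h3)
  rw [h4, h5] at hd
  simp at hd

theorem sub_ne {P Q : ℂ[X]} (hc : IsCoprime P Q) (hd : 1 ≤ max P.natDegree Q.natDegree) (t : ℂ) :
    P - C t * Q ≠ 0 := by
  intro h
  have h1 : P = C t * Q := sub_eq_zero.1 h
  have h2 : IsUnit Q := by
    refine hc.isUnit_of_dvd' (?_ : Q ∣ P) dvd_rfl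
    rw [h1]
    exact dvd_mul_left _ _
  have h3 : Q.natDegree = 0 := natDegree_eq_zero_of_isUnit h2
  have h4 : P.natDegree = 0 := by
    have h5 : P.natDegree ≤ Q.natDegree := by
      rw [h1]
      exact natDegree_C_mul_le t Q
    omega
  rw [h3, h4] at hd
  simp at hd

/-- preimages of null sets are null -/
theorem null_pre {P Q : ℂ[X]} (hc : IsCoprime P Q) (hd : 1 ≤ max P.natDegree Q.natDegree)
    {N : Set ℂ} (hN : volume N = 0) : volume (rf P Q ⁻¹' N) = 0 := by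
  obtain ⟨t, hdisj, hmeas, hcov, hinj⟩ := partition P Q
  have hVm := measurableSet_V P Q
  have hm : ∀ n, MeasurableSet (V P Q ∩ t n) := fun n => hVm.inter (hmeas n)
  obtain ⟨N', hNN', hN'm, hN'0⟩ := exists_measurable_superset_of_null hN
  have hpiece : ∀ n, volume ((V P Q ∩ t n) ∩ rf P Q ⁻¹' N') = 0 := by
    intro n
    have h1 := int_G (u := fun _ => 1) (hm n) inter_subset_left (hinj n) hN'm
    rw [setLIntegral_one] at h1
    rw [← h1]
    exact setLIntegral_measure_zero N' _ hN'0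
  have hW := wr_ne hc hd
  have hQ : Q ≠ 0 := by
    intro h
    have h1 := sub_ne hc hd 0
    have hP : IsUnit P := by
      rw [h] at hc
      exact isCoprime_zero_right.1 hc
    have h3 : P.natDegree = 0 := natDegree_eq_zero_of_isUnit hP
    rw [h, h3] at hd
    simp at hd
  have hbad : volume (V P Q)ᶜ = 0 := by
    have h1 : (V P Q)ᶜ ⊆ (Q.roots.toFinset ∪ (Pool.Agent.H792R2.CE.wr P Q).roots.toFinset :
        Finset ℂ) := by
      classical
      intro w hw
      have h2 : ¬ (Q.eval w ≠ 0 ∧ (Pool.Agent.H792R2.CE.wr P Q).eval w ≠ 0) := hw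
      rw [Finset.mem_coe, Finset.mem_union, Multiset.mem_toFinset, Multiset.mem_toFinset,
        mem_roots hQ, mem_roots hW]
      by_contra hcon
      push Not at hcon
      exact h2 hcon
    exact measure_mono_null h1 (Finset.measure_zero _ _)
  have hsub : rf P Q ⁻¹' N ⊆ (V P Q)ᶜ ∪ ⋃ n, (V P Q ∩ t n) ∩ rf P Q ⁻¹' N' := by
    intro w hw
    by_cases hV : w ∈ V P Q
    · right
      obtain ⟨n, hn⟩ := mem_iUnion.1 (hcov hV)
      exact mem_iUnion.2 ⟨n, ⟨hV, hn⟩, hNN' hw⟩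
    · exact Or.inl hV
  refine measure_mono_null hsub (measure_union_null hbad (measure_iUnion_null hpiece))

theorem ae_pre {P Q : ℂ[X]} (hc : IsCoprime P Q) (hd : 1 ≤ max P.natDegree Q.natDegree)
    {p : ℂ → Prop} (h : ∀ᵐ w : ℂ, p w) : ∀ᵐ w : ℂ, p (rf P Q w) := by
  rw [ae_iff] at h ⊢
  exact null_pre hc hd h

/-- equality in the triangle inequality -/
theorem ray {s : Finset ℂ} {T : ℂ → ℂ} (h : ∑ w ∈ s, ‖T w‖ ≤ ‖∑ w ∈ s, T w‖) {w : ℂ} (hw : w ∈ s) :
    ∃ a : ℝ, 0 ≤ a ∧ T w = a * ∑ w ∈ s, T w := by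
  classical
  have h1 : ∑ w ∈ s, T w = T w + ∑ v ∈ s.erase w, T v := (Finset.add_sum_erase s T hw).symm
  have h2 : ∑ w ∈ s, ‖T w‖ = ‖T w‖ + ∑ v ∈ s.erase w, ‖T v‖ :=
    (Finset.add_sum_erase s (fun v => ‖T v‖) hw).symm
  have h3 := norm_sum_le (s.erase w) T
  obtain ⟨r, hr⟩ : ∃ r, r = ∑ v ∈ s.erase w, T v := ⟨_, rfl⟩
  rw [← hr] at h1 h3
  by_cases h0 : ∑ w ∈ s, T w = 0
  · refine ⟨0, le_rfl, ?_⟩
    rw [h0, norm_zero] at h
    have h4 : ‖T w‖ ≤ 0 :=
      (Finset.single_le_sum (f := fun v => ‖T v‖) (fun v _ => norm_nonneg _) hw).trans h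
    rw [norm_le_zero_iff.1 h4, Complex.ofReal_zero, zero_mul]
  · have h4 : ‖T w + r‖ = ‖T w‖ + ‖r‖ := by
      refine le_antisymm (norm_add_le _ _) ?_
      rw [← h1]
      linarith
    have h5 : SameRay ℝ (T w) r := sameRay_iff_norm_add.2 h4
    have h6 : SameRay ℝ (T w) (T w + r) := (SameRay.refl (T w)).add_right h5
    rw [← h1] at h6
    obtain ⟨a, ha, h7⟩ := h6.exists_nonneg_right h0
    refine ⟨a, ha, ?_⟩
    rw [h7, Complex.real_smul]

section

variable {P Q : ℂ[X]} {H : ℂ → ℂ}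

/-- the invariance of the measure and the equality almost everywhere -/
theorem main_eq (hc : IsCoprime P Q) (hH : Measurable H)
    (hint : ∫⁻ z : ℂ, ‖H z‖ₑ ≠ ⊤)
    (hinv : ∀ᵐ z : ℂ, H z = ∑ w ∈ (P - C z * Q).roots.toFinset,
      Q.eval w ^ 4 / (Pool.Agent.H792R2.CE.wr P Q).eval w ^ 2 * H w) :
    (∀ A : Set ℂ, MeasurableSet A → ∫⁻ w in rf P Q ⁻¹' A, ‖H w‖ₑ = ∫⁻ w in A, ‖H w‖ₑ) ∧
    ∀ᵐ z : ℂ, ∑ w ∈ (P - C z * Q).roots.toFinset,
      ‖Q.eval w ^ 4 / (Pool.Agent.H792R2.CE.wr P Q).eval w ^ 2 * H w‖ₑ ≤ ‖H z‖ₑ := by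
  obtain ⟨t, hdisj, hmeas, hcov, hinj⟩ := partition P Q
  have hVm := measurableSet_V P Q
  have hm : ∀ n, MeasurableSet (V P Q ∩ t n) := fun n => hVm.inter (hmeas n)
  obtain ⟨u, hu⟩ : ∃ u : ℂ → ℝ≥0∞, u = fun z => ‖H z‖ₑ := ⟨_, rfl⟩
  have hum : Measurable u := by
    rw [hu]
    exact hH.enorm
  have hu' : ∀ z, ‖H z‖ₑ = u z := by
    intro z
    rw [hu]
  simp only [hu'] at hint ⊢
  obtain ⟨S', hS'⟩ : ∃ S' : ℂ → ℝ≥0∞, S' = fun z => ∑' n, G P Q u (V P Q ∩ t n) z := ⟨_, rfl⟩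
  have hS'm : Measurable S' := by
    rw [hS']
    exact Measurable.tsum fun n => measurable_G hum (hm n) inter_subset_left (hinj n)
  have hSS' : ∀ z, ∑ w ∈ (P - C z * Q).roots.toFinset, term P Q u w ≤ S' z := by
    intro z
    rw [hS']
    exact sum_le hc hcov hinj z
  have hterm : ∀ w, term P Q u w =
      ‖Q.eval w ^ 4 / (Pool.Agent.H792R2.CE.wr P Q).eval w ^ 2 * H w‖ₑ := by
    intro w
    unfold term
    rw [enorm_mul, hu']
  have hle : ∀ᵐ z : ℂ, u z ≤ S' z := by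
    filter_upwards [hinv] with z hz
    refine le_trans ?_ (hSS' z)
    rw [← hu', hz, Finset.sum_congr rfl fun w _ => hterm w]
    exact enorm_sum_le _ _
  have hS'A : ∀ A : Set ℂ, MeasurableSet A → ∫⁻ z in A, S' z ≤ ∫⁻ w in rf P Q ⁻¹' A, u w := by
    intro A hA
    rw [hS', lintegral_tsum
      (fun n => (measurable_G hum (hm n) inter_subset_left (hinj n)).aemeasurable)]
    have h1 : ∀ n, ∫⁻ z in A, G P Q u (V P Q ∩ t n) z =
        ∫⁻ w in (V P Q ∩ t n) ∩ rf P Q ⁻¹' A, u w := fun n =>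
      int_G (hm n) inter_subset_left (hinj n) hA
    simp only [h1]
    rw [← lintegral_iUnion (fun n => (hm n).inter (measurable_rf P Q hA)) ?_]
    · exact lintegral_mono_set (iUnion_subset fun n => inter_subset_right)
    · intro i j hij
      exact (hdisj hij).mono (inter_subset_left.trans inter_subset_right)
        (inter_subset_left.trans inter_subset_right)
  have hA1 : ∀ A : Set ℂ, MeasurableSet A → ∫⁻ z in A, u z ≤ ∫⁻ w in rf P Q ⁻¹' A, u w := by
    intro A hA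
    exact (lintegral_mono_ae (ae_restrict_of_ae hle)).trans (hS'A A hA)
  have hA2 : ∀ A : Set ℂ, MeasurableSet A → ∫⁻ w in rf P Q ⁻¹' A, u w = ∫⁻ w in A, u w := by
    intro A hA
    refine le_antisymm ?_ (hA1 A hA)
    have hfA : MeasurableSet (rf P Q ⁻¹' A) := measurable_rf P Q hA
    have h1 := lintegral_add_compl (μ := volume) u hA
    have h2 := lintegral_add_compl (μ := volume) u hfA
    have h3 := hA1 Aᶜ hA.compl
    rw [preimage_compl] at h3
    have h4 : (∫⁻ w in A, u w) + ∫⁻ w in Aᶜ, u w ≠ ⊤ := by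
      rw [h1]
      exact hint
    have h5 : ∫⁻ w in Aᶜ, u w ≠ ⊤ := fun h => h4 (by rw [h, add_top])
    have h6 : (∫⁻ w in rf P Q ⁻¹' A, u w) + ∫⁻ w in Aᶜ, u w ≤ (∫⁻ w in A, u w) + ∫⁻ w in Aᶜ, u w := by
      rw [h1, ← h2]
      gcongr
    exact (ENNReal.add_le_add_iff_right h5).1 h6
  refine ⟨hA2, ?_⟩
  have h7 : ∫⁻ z : ℂ, S' z ≤ ∫⁻ z : ℂ, u z := by
    have h8 := hS'A univ MeasurableSet.univ
    rw [preimage_univ, Measure.restrict_univ] at h8
    exact h8
  have h8 : u =ᵐ[volume] S' :=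
    ae_eq_of_ae_le_of_lintegral_le hle hint hS'm.aemeasurable h7
  filter_upwards [h8] with z hz
  rw [hz]
  refine le_trans (le_of_eq ?_) (hSS' z)
  exact Finset.sum_congr rfl fun w _ => (hterm w).symm

/-- the case `n = 1` -/
theorem one_step (hc : IsCoprime P Q) (hd : 1 ≤ max P.natDegree Q.natDegree) (hH : Measurable H)
    (hint : ∫⁻ z : ℂ, ‖H z‖ₑ ≠ ⊤)
    (hinv : ∀ᵐ z : ℂ, H z = ∑ w ∈ (P - C z * Q).roots.toFinset,
      Q.eval w ^ 4 / (Pool.Agent.H792R2.CE.wr P Q).eval w ^ 2 * H w) :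
    ∀ᵐ w : ℂ, ∃ a : ℝ, 0 ≤ a ∧ (H w ≠ 0 → 0 < a) ∧ DifferentiableAt ℂ (rf P Q) w ∧
      H w = (a : ℂ) * deriv (rf P Q) w ^ 2 * H (rf P Q w) := by
  have h1 := ae_pre hc hd (hinv.and (main_eq hc hH hint hinv).2)
  have hW := wr_ne hc hd
  have hQ : Q ≠ 0 := by
    intro h
    have hP : IsUnit P := by
      rw [h] at hc
      exact isCoprime_zero_right.1 hc
    have h3 : P.natDegree = 0 := natDegree_eq_zero_of_isUnit hP
    rw [h, h3] at hd
    simp at hd
  have hroot : ∀ R : ℂ[X], R ≠ 0 → ∀ᵐ w : ℂ, R.eval w ≠ 0 := by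
    intro R hR
    rw [ae_iff]
    have h2 : {w : ℂ | ¬ R.eval w ≠ 0} ⊆ (R.roots.toFinset : Finset ℂ) := by
      intro w hw
      rw [Finset.mem_coe, Multiset.mem_toFinset, mem_roots hR]
      by_contra hcon
      exact hw hcon
    exact measure_mono_null h2 (Finset.measure_zero _ _)
  filter_upwards [h1, hroot Q hQ, hroot _ hW] with w hw hQw hWw
  obtain ⟨h2, h3⟩ := hw
  have hder := hasDerivAt_rf (P := P) hQw
  have hmem : w ∈ (P - C (rf P Q w) * Q).roots.toFinset := by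
    rw [Multiset.mem_toFinset, mem_roots (sub_ne hc hd _)]
    show (P - C (rf P Q w) * Q).eval w = 0
    rw [eval_sub, eval_mul, eval_C, rf, div_mul_cancel₀ _ hQw, sub_self]
  have h4 : ∑ v ∈ (P - C (rf P Q w) * Q).roots.toFinset,
      ‖Q.eval v ^ 4 / (Pool.Agent.H792R2.CE.wr P Q).eval v ^ 2 * H v‖ ≤
      ‖∑ v ∈ (P - C (rf P Q w) * Q).roots.toFinset,
        Q.eval v ^ 4 / (Pool.Agent.H792R2.CE.wr P Q).eval v ^ 2 * H v‖ := by
    rw [← h2]
    have h5 : ∑ v ∈ (P - C (rf P Q w) * Q).roots.toFinset,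
        ‖Q.eval v ^ 4 / (Pool.Agent.H792R2.CE.wr P Q).eval v ^ 2 * H v‖ₑ =
        ENNReal.ofReal (∑ v ∈ (P - C (rf P Q w) * Q).roots.toFinset,
          ‖Q.eval v ^ 4 / (Pool.Agent.H792R2.CE.wr P Q).eval v ^ 2 * H v‖) := by
      rw [ENNReal.ofReal_sum_of_nonneg fun v _ => norm_nonneg _]
      exact Finset.sum_congr rfl fun v _ => (ofReal_norm _).symm
    rw [h5, ← ofReal_norm] at h3
    exact (ENNReal.ofReal_le_ofReal_iff (norm_nonneg _)).1 h3
  obtain ⟨a, ha, h6⟩ := ray h4 hmem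
  rw [← h2] at h6
  refine ⟨a, ha, fun hne => ?_, hder.differentiableAt, ?_⟩
  · refine lt_of_le_of_ne ha fun h0 => ?_
    rw [← h0, Complex.ofReal_zero, zero_mul] at h6
    exact (mul_ne_zero (div_ne_zero (pow_ne_zero _ hQw) (pow_ne_zero _ hWw)) hne) h6
  · rw [hder.deriv]
    have h7 : H w = ((Pool.Agent.H792R2.CE.wr P Q).eval w / Q.eval w ^ 2) ^ 2 *
        (Q.eval w ^ 4 / (Pool.Agent.H792R2.CE.wr P Q).eval w ^ 2 * H w) := by
      field_simp
    rw [h6] at h7
    rw [h7]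
    ring

end

theorem t_EQ : S_EQ := by
  intro d x H K hd hnd hF
  obtain ⟨hc, hmax⟩ := Pool.Agent.H790R3.RB.PQ.part1 (by omega : 1 ≤ d) x hnd
  have hd1 : 1 ≤ max (pol x 0).natDegree (pol x 1).natDegree := by omega
  have hpf : pf x = rf (pol x 0) (pol x 1) := rfl
  have hinv : ∀ᵐ z : ℂ, H z = ∑ w ∈ (pol x 0 - C z * pol x 1).roots.toFinset,
      (pol x 1).eval w ^ 4 / (Pool.Agent.H792R2.CE.wr (pol x 0) (pol x 1)).eval w ^ 2 * H w := hF.inv
  have h1 := one_step hc hd1 hF.meas hF.int hinv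
  have h2 := (main_eq hc hF.meas hF.int hinv).1
  rw [← hpf] at h1 h2
  have hae : ∀ {p : ℂ → Prop}, (∀ᵐ w : ℂ, p w) → ∀ᵐ w : ℂ, p (pf x w) := by
    intro p hp
    rw [hpf]
    exact ae_pre hc hd1 hp
  refine ⟨fun n => ?_, fun n => ?_⟩
  · induction n with
    | zero =>
      refine Eventually.of_forall fun w => ⟨1, zero_le_one, fun _ => one_pos, ?_, ?_⟩
      · exact differentiableAt_id
      · have h3 : deriv ((pf x)^[0]) w = 1 := deriv_id w
        rw [h3, Complex.ofReal_one, one_pow, one_mul, one_mul]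
        rfl
    | succ n ih =>
      filter_upwards [h1, hae ih] with w hw hw'
      obtain ⟨a, ha, hap, hda, hea⟩ := hw
      obtain ⟨b, hb, hbp, hdb, heb⟩ := hw'
      have h3 : (pf x)^[n + 1] = (pf x)^[n] ∘ pf x := Function.iterate_succ _ _
      refine ⟨a * b, mul_nonneg ha hb, fun hne => ?_, ?_, ?_⟩
      · have h4 : H (pf x w) ≠ 0 := by
          intro h0
          rw [h0, mul_zero] at hea
          exact hne hea
        exact mul_pos (hap hne) (hbp h4)
      · rw [h3]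
        exact hdb.comp w hda
      · rw [h3, deriv_comp w hdb hda, hea, heb]
        push_cast
        show _ = _ * H ((pf x)^[n] (pf x w))
        ring
  · induction n with
    | zero =>
      intro A _
      rfl
    | succ n ih =>
      intro A hA
      have hpm : Measurable (pf x) := by
        rw [hpf]
        exact measurable_rf _ _
      have h3 : (pf x)^[n + 1] ⁻¹' A = pf x ⁻¹' ((pf x)^[n] ⁻¹' A) := by
        rw [Function.iterate_succ]
        rfl
      rw [h3, h2 _ ((hpm.iterate n) hA), ih A hA]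

end Pool.Agent.H284.HY211
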